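import Pool.Agent.H.MP_123b7c_lc.E

set_option autoImplicit false

namespace Pool.Agent.Results.MP_123b7c_lc.Linear

open Pool.Agent.H.MP_123b7c_lc

theorem result (G : ContextFreeGrammar ℕ) (F : EOL) (h1 : Sub (famE F) (famG G))
    (h2 : Sub (famG G) (famE F)) : Sub (famG G) LIN :=
  main G F h1 h2

end Pool.Agent.Results.MP_123b7c_lc.Linear
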